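import Mathlib
import Pool.Agent.H554.GR.Const

/-!
# The gcd recursion with `n ^ p - 1`: the first steps after a zero

After a zero `n` the value is `N ^ p - 1`, `N = n + 1`. If `s` is the total decrease up to the index
`N + j - 1`, the next gcd divides `N ^ p - 1 - s` and `(N + j) ^ p - 1`. As polynomials in `N` these have no common
zero if `p` is odd; for `p = 2` their resultant `(s - j ^ 2) ^ 2 - 4 j ^ 2` is odd for the `s` which occur. So the gcd
divides a positive integer which depends only on `p`, `j` and `s`; it is bounded independently of `n` and depends only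
on `n` modulo this integer.
-/

namespace Pool.Agent.Results.MP_e7655a_nt.AfterAZero

/-- The sequence `a_p` of the problem: `a_p 1 = 1` and
`a_p n = |a_p (n - 1) - gcd (a_p (n - 1), n ^ p - 1)|` for `n ≥ 2` (the value at `0` is not used). -/
def a (p : ℕ) : ℕ → ℕ
  | 0 => 1
  | 1 => 1
  | (n + 2) => ((a p (n + 1) : ℤ) - (Nat.gcd (a p (n + 1)) ((n + 2) ^ p - 1) : ℕ)).natAbs

/-- The gcd subtracted at the index `i + 1`. -/
def γ (p i : ℕ) : ℕ := Nat.gcd (a p i) ((i + 1) ^ p - 1)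

lemma a_succ (p i : ℕ) (hi : 1 ≤ i) : a p (i + 1) = ((a p i : ℤ) - (γ p i : ℕ)).natAbs := by
  obtain ⟨k, rfl⟩ : ∃ k, i = k + 1 := ⟨i - 1, by omega⟩
  simp only [a, γ]

lemma a_after (p n : ℕ) (hn : 1 ≤ n) (h0 : a p n = 0) : a p (n + 1) = (n + 1) ^ p - 1 := by
  have h : γ p n = (n + 1) ^ p - 1 := by simp [γ, h0]
  rw [a_succ p n hn, h0, h]
  simp only [Nat.cast_zero, zero_sub, Int.natAbs_neg, Int.natAbs_natCast]

lemma pow_cast (p i : ℕ) : (((i + 1) ^ p - 1 : ℕ) : ℤ) = ((i : ℤ) + 1) ^ p - 1 := by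
  have : 1 ≤ (i + 1) ^ p := Nat.one_le_pow _ _ (by omega)
  push_cast [Nat.cast_sub this]
  ring

lemma γ_dvd_a (p i : ℕ) : ((γ p i : ℕ) : ℤ) ∣ (a p i : ℤ) := by
  exact_mod_cast Nat.gcd_dvd_left _ _

lemma γ_dvd_pow (p i : ℕ) : ((γ p i : ℕ) : ℤ) ∣ ((i : ℕ) + 1 : ℤ) ^ p - 1 := by
  rw [← pow_cast]
  exact_mod_cast Nat.gcd_dvd_right _ _

lemma parity (m : ℕ) (hm : 3 ≤ m) : Odd (a 2 m + m) := by
  induction m, hm using Nat.le_induction with
  | base => decide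
  | succ m hm ih =>
    have h := a_succ 2 m (by omega)
    have hg1 : γ 2 m ∣ a 2 m := Nat.gcd_dvd_left _ _
    have hg2 : γ 2 m ∣ (m + 1) ^ 2 - 1 := Nat.gcd_dvd_right _ _
    have hγ : Odd (γ 2 m) := by
      rcases Nat.even_or_odd m with he | ho
      · have : Odd (a 2 m) := by
          rcases he with ⟨r, hr⟩
          rcases ih with ⟨t, ht⟩
          exact ⟨t - r, by omega⟩
        exact Odd.of_dvd_nat this hg1
      · have : Odd ((m + 1) ^ 2 - 1) := by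
          have h1 : Even ((m + 1) ^ 2) := (ho.add_one).pow_of_ne_zero (by norm_num)
          have h2 : 1 ≤ (m + 1) ^ 2 := Nat.one_le_pow _ _ (by omega)
          rcases h1 with ⟨r, hr⟩
          exact ⟨r - 1, by omega⟩
        exact Odd.of_dvd_nat this hg2
    have hint : ((a 2 (m + 1) : ℤ)) = |(a 2 m : ℤ) - (γ 2 m : ℕ)| := by
      rw [h]; simp
    rcases hγ with ⟨r, hr⟩
    rcases ih with ⟨t, ht⟩
    rcases abs_cases ((a 2 m : ℤ) - (γ 2 m : ℕ)) with ⟨h1, _⟩ | ⟨h1, _⟩ <;>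
      · rw [h1] at hint
        rw [← Nat.not_even_iff_odd, Nat.even_iff]
        omega

/-- The decrease `(n + 1) ^ 2 - 1 - a_2 (n + j)`. -/
def drop (n j : ℕ) : ℤ := ((n : ℤ) + 1) ^ 2 - 1 - a 2 (n + j)

/-- `(s - j ^ 2) ^ 2 - 4 j ^ 2`. -/
def R (j : ℕ) (s : ℤ) : ℤ := (s - (j : ℤ) ^ 2) ^ 2 - 4 * (j : ℤ) ^ 2

lemma gcd_dvd_R (n j : ℕ) : ((γ 2 (n + j) : ℕ) : ℤ) ∣ R j (drop n j) := by
  have h1 := γ_dvd_a 2 (n + j)
  have h2 := γ_dvd_pow 2 (n + j)
  set P : ℤ := (a 2 (n + j) : ℤ) with hP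
  set Q : ℤ := ((n + j : ℕ) + 1 : ℤ) ^ 2 - 1 with hQ
  have key : R j (drop n j) = 4 * (j : ℤ) ^ 2 * P
      - (Q - P) * (Q - P - 2 * ((j : ℤ) ^ 2 + drop n j)) := by
    simp only [R, drop, hQ]
    push_cast
    rw [← hP]
    ring
  rw [key]
  exact dvd_sub (Dvd.dvd.mul_left h1 _) (Dvd.dvd.mul_right (dvd_sub h2 h1) _)

lemma odd_R (n j : ℕ) (hn : 3 ≤ n) (h0 : a 2 n = 0) : Odd (R j (drop n j)) := by
  have h1 := parity n hn
  rw [h0, zero_add] at h1
  have h2 := parity (n + j) (by omega)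
  rcases h1 with ⟨r, hr⟩
  rcases h2 with ⟨t, ht⟩
  have hA : (a 2 (n + j) : ℤ) = 2 * t + 1 - (n + j) := by
    have : ((a 2 (n + j) + (n + j) : ℕ) : ℤ) = ((2 * t + 1 : ℕ) : ℤ) := by rw [ht]
    push_cast at this
    linarith
  have hs : Odd (drop n j - (j : ℤ) ^ 2) := by
    have hn' : (n : ℤ) = 2 * r + 1 := by exact_mod_cast hr
    have hj : Even ((j : ℤ) - (j : ℤ) ^ 2) := by
      have := Int.even_mul_pred_self (j : ℤ)
      have e : (j : ℤ) - (j : ℤ) ^ 2 = - ((j : ℤ) * (j - 1)) := by ring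
      rw [e]
      exact this.neg
    rcases hj with ⟨u, hu⟩
    refine ⟨2 * (r + 1) ^ 2 - 1 - t + r + u, ?_⟩
    simp only [drop]
    rw [hA, hn']
    linarith [hu]
  have h3 : Odd ((drop n j - (j : ℤ) ^ 2) ^ 2) := hs.pow
  have h4 : Even (4 * (j : ℤ) ^ 2) := ⟨2 * (j : ℤ) ^ 2, by ring⟩
  exact h3.sub_even h4

/-- The gcd after `j` steps with the decrease `s` divides a constant. -/
lemma exists_D (p j s : ℕ) (hp : p.Prime) (hj : 1 ≤ j) :
    ∃ D : ℕ, 1 ≤ D ∧ ∀ n, 3 ≤ n → a p n = 0 → (a p (n + j) : ℤ) + s = ((n : ℤ) + 1) ^ p - 1 →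
      γ p (n + j) ∣ D := by
  by_cases hp2 : p = 2
  · subst hp2
    by_cases hR : R j s = 0
    · refine ⟨1, le_rfl, fun n hn h0 hs => ?_⟩
      exfalso
      have hd : drop n j = s := by simp only [drop]; linarith
      have := odd_R n j hn h0
      rw [hd, hR] at this
      exact absurd this (by decide)
    · refine ⟨(R j s).natAbs, Int.natAbs_pos.mpr hR, fun n hn h0 hs => ?_⟩
      have hd : drop n j = s := by simp only [drop]; linarith
      have := gcd_dvd_R n j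
      rw [hd] at this
      exact Int.natCast_dvd.mp this
  · obtain ⟨D, hD, h⟩ := Pool.Agent.H554.GR.exists_const_odd p j s hp hp2 hj
    refine ⟨D, hD, fun n hn h0 hs => ?_⟩
    have h1 := γ_dvd_a p (n + j)
    have h2 := γ_dvd_pow p (n + j)
    have e1 : ((n : ℤ) + 1) ^ p - 1 - s = (a p (n + j) : ℤ) := by linarith
    have e2 : ((n : ℤ) + 1 + j) ^ p - 1 = (((n + j : ℕ) : ℤ) + 1) ^ p - 1 := by
      push_cast
      ring
    have := h ((n : ℤ) + 1) (γ p (n + j) : ℕ) (by rw [e1]; exact h1) (by rw [e2]; exact h2)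
    exact_mod_cast this

/-- The bound for the decrease. -/
def F (D : ℕ → ℕ → ℕ) : ℕ → ℕ
  | 0 => 0
  | (j + 1) => F D j + ∑ s ∈ Finset.range (F D j + 1), D j s

lemma F_mono (D : ℕ → ℕ → ℕ) (i j : ℕ) (h : i ≤ j) : F D i ≤ F D j := by
  induction j, h using Nat.le_induction with
  | base => exact le_rfl
  | succ j _ ih => exact ih.trans (by simp only [F]; omega)

lemma next (p n j s : ℕ) (hj : 1 ≤ j) (hpos : (s : ℤ) < ((n : ℤ) + 1) ^ p - 1)
    (hs : (a p (n + j) : ℤ) + s = ((n : ℤ) + 1) ^ p - 1) :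
    (a p (n + (j + 1)) : ℤ) + (s + γ p (n + j) : ℕ) = ((n : ℤ) + 1) ^ p - 1 := by
  have h1 : (0 : ℤ) < a p (n + j) := by linarith
  have hpos' : 0 < a p (n + j) := by exact_mod_cast h1
  have hle : γ p (n + j) ≤ a p (n + j) := Nat.gcd_le_left _ hpos'
  have hsucc : (a p (n + (j + 1)) : ℤ) = a p (n + j) - γ p (n + j) := by
    rw [← add_assoc, a_succ p (n + j) (by omega)]
    rw [Int.natCast_natAbs, abs_of_nonneg]
    have : (γ p (n + j) : ℤ) ≤ a p (n + j) := by exact_mod_cast hle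
    linarith
  rw [hsucc]
  push_cast
  linarith

lemma step (p : ℕ) (D : ℕ → ℕ → ℕ)
    (hD : ∀ j s, 1 ≤ j → 1 ≤ D j s ∧ ∀ n, 3 ≤ n → a p n = 0 →
      (a p (n + j) : ℤ) + s = ((n : ℤ) + 1) ^ p - 1 → γ p (n + j) ∣ D j s)
    (n j : ℕ) (hn : 3 ≤ n) (h0 : a p n = 0) (hj : 1 ≤ j) :
    (F D j : ℤ) < ((n : ℤ) + 1) ^ p - 1 →
      ∃ s : ℕ, s ≤ F D j ∧ (a p (n + j) : ℤ) + s = ((n : ℤ) + 1) ^ p - 1 := by
  induction j, hj using Nat.le_induction with
  | base =>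
    intro _
    refine ⟨0, Nat.zero_le _, ?_⟩
    rw [a_after p n (by omega) h0, pow_cast]
    simp
  | succ j hj ih =>
    intro hF
    have hmono : (F D j : ℤ) ≤ F D (j + 1) := by exact_mod_cast F_mono D j (j + 1) (by omega)
    obtain ⟨s, h1, h2⟩ := ih (by linarith)
    have h1' : (s : ℤ) ≤ F D j := by exact_mod_cast h1
    refine ⟨s + γ p (n + j), ?_, next p n j s hj (by linarith) h2⟩
    have h3 : γ p (n + j) ≤ D j s := Nat.le_of_dvd (hD j s hj).1 ((hD j s hj).2 n hn h0 h2)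
    have h4 : D j s ≤ ∑ s ∈ Finset.range (F D j + 1), D j s :=
      Finset.single_le_sum (f := fun s => D j s) (fun _ _ => Nat.zero_le _)
        (Finset.mem_range.mpr (by omega))
    simp only [F]
    omega

/-- The gcd subtracted after `j` steps depends only on the zero modulo `D j s`. -/
lemma gcd_eq (p : ℕ) (D : ℕ → ℕ → ℕ)
    (hD : ∀ j s, 1 ≤ j → 1 ≤ D j s ∧ ∀ n, 3 ≤ n → a p n = 0 →
      (a p (n + j) : ℤ) + s = ((n : ℤ) + 1) ^ p - 1 → γ p (n + j) ∣ D j s)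
    (n m j s : ℕ) (hj : 1 ≤ j) (hn : 3 ≤ n) (hm : 3 ≤ m) (h0 : a p n = 0) (h0' : a p m = 0)
    (hs : (a p (n + j) : ℤ) + s = ((n : ℤ) + 1) ^ p - 1)
    (ht : (a p (m + j) : ℤ) + s = ((m : ℤ) + 1) ^ p - 1) (h : (D j s : ℤ) ∣ (n : ℤ) - m) :
    γ p (n + j) = γ p (m + j) := by
  have main : ∀ n m : ℕ, 3 ≤ n → a p n = 0 → (a p (n + j) : ℤ) + s = ((n : ℤ) + 1) ^ p - 1 →
      (a p (m + j) : ℤ) + s = ((m : ℤ) + 1) ^ p - 1 → (D j s : ℤ) ∣ (n : ℤ) - m →
      γ p (n + j) ∣ γ p (m + j) := by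
    intro n m hn h0 hs ht h
    have hd : ((γ p (n + j) : ℕ) : ℤ) ∣ (n : ℤ) - m :=
      (Int.natCast_dvd_natCast.mpr ((hD j s hj).2 n hn h0 hs)).trans h
    have h1 := γ_dvd_a p (n + j)
    have h2 := γ_dvd_pow p (n + j)
    have h3 : ((γ p (n + j) : ℕ) : ℤ) ∣ (a p (m + j) : ℤ) := by
      have e : (a p (m + j) : ℤ) = a p (n + j) - (((n : ℤ) + 1) ^ p - ((m : ℤ) + 1) ^ p) := by
        linarith
      rw [e]
      refine dvd_sub h1 (Dvd.dvd.trans ?_ (sub_dvd_pow_sub_pow _ _ p))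
      have : (n : ℤ) + 1 - (m + 1) = n - m := by ring
      rw [this]
      exact hd
    have h4 : ((γ p (n + j) : ℕ) : ℤ) ∣ (((m + j + 1) ^ p - 1 : ℕ) : ℤ) := by
      rw [pow_cast]
      have e : (((m + j : ℕ) : ℤ) + 1) ^ p - 1 = (((n + j : ℕ) : ℤ) + 1) ^ p - 1
          - ((((n + j : ℕ) : ℤ) + 1) ^ p - (((m + j : ℕ) : ℤ) + 1) ^ p) := by ring
      rw [e]
      refine dvd_sub h2 (Dvd.dvd.trans ?_ (sub_dvd_pow_sub_pow _ _ p))
      have : (((n + j : ℕ) : ℤ) + 1) - (((m + j : ℕ) : ℤ) + 1) = n - m := by push_cast; ring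
      rw [this]
      exact hd
    exact Nat.dvd_gcd (by exact_mod_cast h3) (by exact_mod_cast h4)
  apply Nat.dvd_antisymm
  · exact main n m hn h0 hs ht h
  · refine main m n hm h0' ht hs ?_
    have := (dvd_neg (a := (D j s : ℤ))).mpr h
    rwa [neg_sub] at this

/-- **The first steps after a zero.** Let `p` be a prime and `a_p` the sequence of the problem.
1. For all `j ≥ 1` and `s ≥ 0` there is a positive integer `D` such that for every zero `n ≥ 3` with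
`a_p (n + j) = (n + 1) ^ p - 1 - s` the gcd of `a_p (n + j)` and `(n + j + 1) ^ p - 1`, which is subtracted at the index
`n + j + 1`, divides `D`.
2. If `p = 2`, one can take `D = |(s - j ^ 2) ^ 2 - 4 j ^ 2|`, which is odd.
3. For every `J` there is `C` such that `a_p (n + j) ≥ (n + 1) ^ p - 1 - C` for all zeros `n` and `1 ≤ j ≤ J`.
4. For every `J` there are `M ≥ 1` and `n₀` such that for all zeros `n, m ≥ n₀` with `n ≡ m (mod M)` the decreases
`(n + 1) ^ p - 1 - a_p (n + j)` and `(m + 1) ^ p - 1 - a_p (m + j)` are equal for `1 ≤ j ≤ J`. -/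
theorem result (p : ℕ) (hp : p.Prime) :
    (∀ j s : ℕ, 1 ≤ j → ∃ D : ℕ, 1 ≤ D ∧ ∀ n, 3 ≤ n → a p n = 0 →
      (a p (n + j) : ℤ) = ((n : ℤ) + 1) ^ p - 1 - s →
        Nat.gcd (a p (n + j)) ((n + j + 1) ^ p - 1) ∣ D) ∧
    (p = 2 → ∀ n, 3 ≤ n → a p n = 0 → ∀ j : ℕ, ∀ s : ℤ, (a p (n + j) : ℤ) = ((n : ℤ) + 1) ^ p - 1 - s →
      ((Nat.gcd (a p (n + j)) ((n + j + 1) ^ p - 1) : ℕ) : ℤ) ∣ (s - (j : ℤ) ^ 2) ^ 2 - 4 * (j : ℤ) ^ 2 ∧
      Odd ((s - (j : ℤ) ^ 2) ^ 2 - 4 * (j : ℤ) ^ 2)) ∧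
    (∀ J : ℕ, ∃ C : ℕ, ∀ n, a p n = 0 → ∀ j, 1 ≤ j → j ≤ J →
      ((n : ℤ) + 1) ^ p - 1 - C ≤ a p (n + j)) ∧
    (∀ J : ℕ, ∃ M n₀ : ℕ, 1 ≤ M ∧ ∀ n m, n₀ ≤ n → n₀ ≤ m → a p n = 0 → a p m = 0 →
      n ≡ m [MOD M] → ∀ j, 1 ≤ j → j ≤ J →
        ((n : ℤ) + 1) ^ p - 1 - a p (n + j) = ((m : ℤ) + 1) ^ p - 1 - a p (m + j)) := by
  have hex : ∀ j s : ℕ, ∃ D : ℕ, 1 ≤ j → 1 ≤ D ∧ ∀ n, 3 ≤ n → a p n = 0 →
      (a p (n + j) : ℤ) + s = ((n : ℤ) + 1) ^ p - 1 → γ p (n + j) ∣ D := by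
    intro j s
    by_cases hj : 1 ≤ j
    · obtain ⟨D, h⟩ := exists_D p j s hp hj
      exact ⟨D, fun _ => h⟩
    · exact ⟨0, fun h => absurd h hj⟩
  choose D hD using hex
  have hlarge : ∀ J j n : ℕ, j ≤ J → F D J + 3 ≤ n → (F D j : ℤ) < ((n : ℤ) + 1) ^ p - 1 := by
    intro J j n hj hn
    have h1 : F D j ≤ F D J := F_mono D j J hj
    have h2 : n + 1 ≤ (n + 1) ^ p := Nat.le_self_pow hp.ne_zero _
    have h3 : ((n + 1 : ℕ) : ℤ) ≤ (((n + 1) ^ p : ℕ) : ℤ) := by exact_mod_cast h2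
    have h4 : ((F D j : ℕ) : ℤ) + 3 ≤ n := by exact_mod_cast (by omega : F D j + 3 ≤ n)
    push_cast at h3
    linarith
  refine ⟨?_, ?_, ?_, ?_⟩
  · intro j s hj
    obtain ⟨h1, h2⟩ := hD j s hj
    exact ⟨D j s, h1, fun n hn h0 hs => h2 n hn h0 (by linarith)⟩
  · rintro rfl n hn h0 j s hs
    have hd : drop n j = s := by simp only [drop]; linarith
    have h1 := gcd_dvd_R n j
    have h2 := odd_R n j hn h0
    rw [hd] at h1 h2
    exact ⟨h1, h2⟩
  · intro J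
    refine ⟨F D J + (F D J + 3) ^ p, fun n h0 j hj hjJ => ?_⟩
    by_cases hn : F D J + 3 ≤ n
    · obtain ⟨s, h1, h2⟩ := step p D hD n j (by omega) h0 hj (hlarge J j n hjJ hn)
      have h3 : (s : ℤ) ≤ F D J := by exact_mod_cast h1.trans (F_mono D j J hjJ)
      have h4 : (0 : ℤ) ≤ ((F D J + 3 : ℕ) : ℤ) ^ p := by positivity
      push_cast at h4 ⊢
      linarith
    · have h1 : (n + 1) ^ p ≤ (F D J + 3) ^ p := Nat.pow_le_pow_left (by omega) p
      have h2 : (((n + 1) ^ p : ℕ) : ℤ) ≤ (((F D J + 3) ^ p : ℕ) : ℤ) := by exact_mod_cast h1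
      have h3 : (0 : ℤ) ≤ a p (n + j) := by positivity
      have h4 : (0 : ℤ) ≤ F D J := by positivity
      push_cast at h2 ⊢
      linarith
  · intro J
    refine ⟨∏ j ∈ Finset.range J, ∏ s ∈ Finset.range (F D J + 1), D (j + 1) s, F D J + 3, ?_, ?_⟩
    · apply Nat.one_le_iff_ne_zero.mpr
      apply Finset.prod_ne_zero_iff.mpr
      intro j _
      apply Finset.prod_ne_zero_iff.mpr
      intro s _
      have := (hD (j + 1) s (by omega)).1
      omega
    intro n m hn hm h0 h0' hmod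
    have main : ∀ j, 1 ≤ j → j ≤ J → ∃ s : ℕ, s ≤ F D J ∧
        (a p (n + j) : ℤ) + s = ((n : ℤ) + 1) ^ p - 1 ∧
        (a p (m + j) : ℤ) + s = ((m : ℤ) + 1) ^ p - 1 := by
      intro j hj
      induction j, hj using Nat.le_induction with
      | base =>
        intro _
        refine ⟨0, Nat.zero_le _, ?_, ?_⟩
        · rw [a_after p n (by omega) h0, pow_cast]; simp
        · rw [a_after p m (by omega) h0', pow_cast]; simp
      | succ j hj ih =>
        intro hJ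
        obtain ⟨s, h1, h2, h3⟩ := ih (by omega)
        obtain ⟨t, t1, t2⟩ := step p D hD n (j + 1) (by omega) h0 (by omega) (hlarge J (j + 1) n hJ hn)
        obtain ⟨u, u1, u2⟩ := step p D hD n j (by omega) h0 hj (hlarge J j n (by omega) hn)
        obtain ⟨v, v1, v2⟩ := step p D hD m j (by omega) h0' hj (hlarge J j m (by omega) hm)
        have hsu : (s : ℤ) = u := by linarith
        have hsv : (s : ℤ) = v := by linarith
        have hu' : (u : ℤ) ≤ F D j := by exact_mod_cast u1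
        have hv' : (v : ℤ) ≤ F D j := by exact_mod_cast v1
        have hdvd : (D j s : ℤ) ∣ (n : ℤ) - m := by
          have e1 : D j s ∣ ∏ j ∈ Finset.range J, ∏ s ∈ Finset.range (F D J + 1), D (j + 1) s := by
            have e2 : D j s ∣ ∏ s ∈ Finset.range (F D J + 1), D (j - 1 + 1) s := by
              rw [Nat.sub_add_cancel hj]
              exact Finset.dvd_prod_of_mem (fun s => D j s) (Finset.mem_range.mpr (by omega))
            exact e2.trans (Finset.dvd_prod_of_mem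
              (fun j => ∏ s ∈ Finset.range (F D J + 1), D (j + 1) s)
              (Finset.mem_range.mpr (by omega)))
          exact (Int.natCast_dvd_natCast.mpr e1).trans (Nat.modEq_iff_dvd.mp hmod.symm)
        have hγ : γ p (n + j) = γ p (m + j) :=
          gcd_eq p D hD n m j s hj (by omega) (by omega) h0 h0' h2 h3 hdvd
        have n1 := next p n j s hj (by linarith [hlarge J j n (by omega) hn]) h2
        have n2 := next p m j s hj (by linarith [hlarge J j m (by omega) hm]) h3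
        rw [← hγ] at n2
        refine ⟨s + γ p (n + j), ?_, n1, n2⟩
        have : ((s + γ p (n + j) : ℕ) : ℤ) = t := by linarith
        have : s + γ p (n + j) = t := by exact_mod_cast this
        rw [this]
        exact t1.trans (F_mono D (j + 1) J hJ)
    intro j hj hjJ
    obtain ⟨s, _, h2, h3⟩ := main j hj hjJ
    linarith

end Pool.Agent.Results.MP_e7655a_nt.AfterAZero
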