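import Pool.Agent.H531.GC.Grow

/-!
# The gcd recursion with `n ^ p - 1` in the random model: the zeros are `θ ^ (p ^ k)`, asymptotically

With `b = a (n) + n` one has `(n + 1) ^ p - 1 ≡ (b + 1) ^ p - 1` modulo `a (n)`, so that the recursion of the problem reads
`a (n + 1) = a (n) - gcd (a (n), (b + 1) ^ p - 1)` for `a (n) ≠ 0`. In the model the number `b` is replaced, in the stage after
the zero `s`, by an integer `X s b`, uniformly distributed on `0, …, (b ^ p)! - 1` (so that its residues modulo the primes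
`l ≤ b ^ p` are uniform and independent), all the `X s b` being independent.

The theorem: for every prime `p`, almost surely there is a real `θ > 1` such that the `k`-th zero is asymptotic to `θ ^ (p ^ k)`.
-/

set_option autoImplicit false

namespace Pool.Agent.Results.MP_e7655a_nt.GrowthInTheModel

open MeasureTheory ProbabilityTheory Filter Topology

/-- the numbers `X s b` are independent, `X s b` is uniformly distributed on `0, …, M b - 1` -/
structure Model {Ω : Type} [MeasurableSpace Ω] (M : ℕ → ℕ) (P : Measure Ω) (X : ℕ → ℕ → Ω → ℕ) : Prop where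
  prob : IsProbabilityMeasure P
  meas : ∀ s b, Measurable (X s b)
  indep : iIndepFun (fun i : ℕ × ℕ => X i.1 i.2) P
  lt : ∀ s b ω, X s b ω < M b
  law : ∀ s b, ∀ k < M b, P {ω | X s b ω = k} = ((M b : ℕ) : ENNReal)⁻¹

/-- The recursion with an array `X`: in the step from `n` to `n + 1` with `a n ≠ 0` the number `(n + 1) ^ p - 1` of the problem
is replaced by `(X s b + 1) ^ p - 1`, `b = a n + n`, where `s = σ n` is the last zero before `n` (`0` if there is none). -/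
structure IsRun (p : ℕ) (X : ℕ → ℕ → ℕ) (a σ : ℕ → ℕ) : Prop where
  one : a 1 = 1
  sig : σ 1 = 0
  zero : ∀ n, 1 ≤ n → a n = 0 → a (n + 1) = (n + 1) ^ p - 1 ∧ σ (n + 1) = n
  pos : ∀ n, 1 ≤ n → a n ≠ 0 →
    a (n + 1) = a n - Nat.gcd (a n) ((X (σ n) (a n + n) + 1) ^ p - 1) ∧ σ (n + 1) = σ n

theorem run_iff (p : ℕ) (X : ℕ → ℕ → ℕ) (a σ : ℕ → ℕ) : IsRun p X a σ ↔ Pool.Agent.T2H19.GR.IsRun p X a σ :=
  ⟨fun h => ⟨h.one, h.sig, h.zero, h.pos⟩, fun h => ⟨h.one, h.sig, h.zero, h.pos⟩⟩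

/-- Let `p` be a prime. (1) The recursion has exactly one solution for every array `X`, and (2) for `X s b = b` it is the
recursion of the problem. (3) The random model exists. (4) In the random model almost surely there is `θ > 1` such that the
increasing sequence `z 0 < z 1 < …` of all the zeros satisfies `z k / θ ^ (p ^ k) → 1`. -/
theorem result (p : ℕ) (hp : p.Prime) :
    (∀ X : ℕ → ℕ → ℕ, ∃ a σ : ℕ → ℕ, IsRun p X a σ ∧
      ∀ a' σ' : ℕ → ℕ, IsRun p X a' σ' → ∀ n, 1 ≤ n → a' n = a n ∧ σ' n = σ n) ∧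
    (∀ a : ℕ → ℤ, a 1 = 1 →
      (∀ n : ℕ, 2 ≤ n → a n = |a (n - 1) - (Int.gcd (a (n - 1)) ((n : ℤ) ^ p - 1) : ℤ)|) →
      ∀ a' σ : ℕ → ℕ, IsRun p (fun _ b => b) a' σ → ∀ n, 1 ≤ n → (a' n : ℤ) = a n) ∧
    (∃ (Ω : Type) (_ : MeasurableSpace Ω) (P : Measure Ω) (X : ℕ → ℕ → Ω → ℕ),
      Model (fun b => (b ^ p).factorial) P X) ∧
    ∀ (Ω : Type) [MeasurableSpace Ω] (P : Measure Ω) (X : ℕ → ℕ → Ω → ℕ),
      Model (fun b => (b ^ p).factorial) P X → ∀ a σ : Ω → ℕ → ℕ,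
      (∀ ω, IsRun p (fun s b => X s b ω) (a ω) (σ ω)) → ∀ᵐ ω ∂P,
        ∃ θ : ℝ, 1 < θ ∧ ∃ z : ℕ → ℕ, StrictMono z ∧ (∀ n, (∃ k, z k = n) ↔ 1 ≤ n ∧ a ω n = 0) ∧
          Tendsto (fun k => (z k : ℝ) / θ ^ (p ^ k)) atTop (𝓝 1) := by
  refine ⟨fun X => ?_, ?_, ?_, ?_⟩
  · exact ⟨_, _, (run_iff _ _ _ _).2 (Pool.Agent.T2H19.GR.Run.isRun_st p X),
      fun a' σ' h => Pool.Agent.T2H19.GR.Run.run_unique (Pool.Agent.T2H19.GR.Run.isRun_st p X) ((run_iff _ _ _ _).1 h)⟩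
  · intro a h1 h a' σ hr
    exact (Pool.Agent.T2H19.GR.Run.literal p hp.two_le a h1 h a' σ ((run_iff _ _ _ _).1 hr)).1
  · obtain ⟨Ω, i, P, X, h⟩ := Pool.Agent.T2H19.GR.T_MOD (fun b => (b ^ p).factorial) (fun b => Nat.factorial_pos _)
    exact ⟨Ω, i, P, X, h.prob, h.meas, h.indep, h.lt, h.law⟩
  · intro Ω _ P X hX a σ hrun
    exact Pool.Agent.H531.GC.grow_main hp P X ⟨hX.prob, hX.meas, hX.indep, hX.lt, hX.law⟩ a σ
      (fun ω => (run_iff _ _ _ _).1 (hrun ω))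

end Pool.Agent.Results.MP_e7655a_nt.GrowthInTheModel
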